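import Pool.Agent.X45.Ex.ACheck
import Pool.Agent.X45.Ex.Tur2

/-!
# Exchanging edges of Turán's construction

Let `H` be a `K_4^3`-free 3-graph on `n` vertices and `T` Turán's construction for any division of
the vertices into three classes. We prove `8 (|H| - 5/54 n^3) ≤ |H \ T|`: for `T` with classes of
almost equal sizes, a `K_4^3`-free 3-graph with `s` edges more than `T` must contain at least
`8 s - O(n^2)` triples that are not in `T`, so adding `k` edges to `T` makes it necessary to delete
at least `7/8 k - O(n^2)` edges of `T`. (Turán's conjecture is this with 1 in place of 7/8.)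
The proof is a flag algebra computation of order five for coloured 3-graphs, with an exact
certificate checked by the kernel.
-/

set_option autoImplicit false
open Finset

namespace Pool.Agent.Results.MP_466853_co.ExchangeRatio

variable {n : ℕ}

/-- The 3-graph `H` has no four vertices spanning all four triples. -/
def K43Free (H : Finset (Finset (Fin n))) : Prop :=
  ∀ S : Finset (Fin n), S.card = 4 → ∃ T ⊆ S, T.card = 3 ∧ T ∉ H

/-- Turán's construction for the division `g` of the vertices into three classes: the triples that
meet all three classes, and the triples with two vertices in a class and one in the next class. -/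
def turan (g : Fin n → Fin 3) : Finset (Finset (Fin n)) :=
  univ.filter fun t => t.card = 3 ∧ ((∀ p, ∃ i ∈ t, g i = p) ∨
    ∃ p, (t.filter fun i => g i = p).card = 2 ∧ (t.filter fun i => g i = p + 1).card = 1)

/-- The number of vertices of the class `p`. -/
def size (g : Fin n → Fin 3) (p : Fin 3) : ℕ := (univ.filter fun i => g i = p).card

open Pool.Agent.Y439.Col Pool.Agent.X45.Ex

/-- Let `H` be a `K_4^3`-free 3-graph on `n` vertices, `g` any division of its vertices into three
classes and `T` Turán's construction for it. Then `|H| ≤ 5 n^3 / 54 + |H \ T| / 8`. If the sizes of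
the classes differ by at most one, this gives `7 |H \ T| ≤ 8 |T \ H| + 2 n^2`. -/
theorem result (H : Finset (Finset (Fin n))) (h3 : ∀ e ∈ H, e.card = 3) (hK : K43Free H)
    (g : Fin n → Fin 3) :
    216 * H.card ≤ 20 * n ^ 3 + 27 * (H \ turan g).card ∧
    ((∀ p q, size g p ≤ size g q + 1) →
      7 * (H \ turan g).card ≤ 8 * (turan g \ H).card + 2 * n ^ 2) := by
  have hc : ∀ x, ((g x : Fin 3) : ℕ) < 3 := fun x => (g x).2
  have hA := Pool.Agent.X45.Ex.A.final (fun v => (g v : ℕ)) hc (tri H) (tri_le H) (tri_s1 H)
    (tri_s2 H) (tri_k4 h3 hK)
  have bA := bridge 0 1 1 3600000 337500 H h3 g Pool.Agent.X45.Ex.A.pt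
    (fun _ _ _ _ _ _ _ _ _ _ _ _ _ _ _ => rfl) hA
  rw [Fintype.card_fin] at bA
  have eT : turanV g = turan g := by
    ext t
    simp only [turanV, turan, mem_filter, mem_univ, true_and]
  have e1 := inner_add_rev g H h3
  rw [eT] at e1
  have r1 : 216 * H.card ≤ 20 * n ^ 3 + 27 * (H \ turan g).card := by
    rw [← e1]
    omega
  refine ⟨r1, ?_⟩
  intro hg
  have := exchange g H h3 (by rw [Fintype.card_fin, eT]; exact r1) hg
  rw [Fintype.card_fin, eT] at this
  exact this

end Pool.Agent.Results.MP_466853_co.ExchangeRatio
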