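import Pool.Agent.X59.LF.C

/-!
# Turán's number for `K_4^3`, exactly, under conditions on the triples outside Turán's construction

Turán's construction for a division of the vertices into three classes `A_0, A_1, A_2` consists of
the triples which meet all three classes and of the triples with two vertices in `A_i` and one in
`A_{i+1}` (indices modulo 3). Let `T` be this 3-graph. Let `H` be a `K_4^3`-free 3-graph on the same
vertices, and suppose that
* any two vertices of `A_i` form an edge of `H` with at most `κ |A_{i+1}|` vertices of `A_i`;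
* any vertex of `A_i` and any vertex of `A_{i-1}` form an edge of `H` with at most `θ |A_{i+1}|`
  vertices of `A_i`.
So the conditions concern only edges of `H` that are not in `T`; nothing is assumed on the number of
the missing triples of `T`. We prove `|H| ≤ |T|`, and so `|H|` is at most Turán's number, if
`(κ, θ)` is `(1/2, 1/11)`, `(1/3, 1/7)` or `(1/10, 1/4)`, and bound the number of edges outside `T`
by `ρ < 1` times the number of missing triples, for a whole region of pairs `(κ, θ)`.

Outline. Let `xyz` be an edge of `H` outside `T`, with `x, y ∈ A_i`, and `v ∈ A_{i+1}`. The other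
three triples of `x, y, z, v` are in `T`, so one of them is missing. If `z ∈ A_i`, this gives the
bound with `κ`, because `xyv` is counted only for the edges `xyz`. If `z ∈ A_{i-1}`, the number of
`z` for a given pair `xy` is not bounded; but two edges `xyz`, `xyz'` force a missing triple `xzz'`
or `yzz'`, and this bounds the sum of the squares of these numbers, because the number of `y` for
given `x, z` is at most `θ |A_{i+1}|`. The two bounds are combined by the inequality of the means.
-/

set_option autoImplicit false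
open Finset
open scoped Classical

namespace Pool.Agent.Results.MP_466853_co.LibFour

variable {n : ℕ}

/-- The 3-graph `H` has no four vertices spanning all four triples. -/
def K43Free (H : Finset (Finset (Fin n))) : Prop :=
  ∀ S : Finset (Fin n), S.card = 4 → ∃ t ⊆ S, t.card = 3 ∧ t ∉ H

/-- Turán's construction for the division of the vertices into the classes `c = 0`, `c = 1`, `c = 2`:
the triples which meet all classes, and those with two vertices in the class `i` and one vertex in
the class `i + 1` (modulo 3). -/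
noncomputable def turan (c : Fin n → Fin 3) : Finset (Finset (Fin n)) :=
  ((univ : Finset (Fin n)).powersetCard 3).filter fun t =>
    (∀ j, ∃ x ∈ t, c x = j) ∨
      ∃ i, (t.filter fun x => c x = i).card = 2 ∧ (t.filter fun x => c x = i + 1).card = 1

/-- Turán's number: the number of edges of Turán's construction with classes of the sizes
`⌊n/3⌋`, `⌊(n+1)/3⌋`, `⌊(n+2)/3⌋`. -/
def turanNumber (n : ℕ) : ℕ :=
  n / 3 * ((n + 1) / 3) * ((n + 2) / 3) + (n / 3).choose 2 * ((n + 1) / 3) +
    ((n + 1) / 3).choose 2 * ((n + 2) / 3) + ((n + 2) / 3).choose 2 * (n / 3)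

/-- The number of vertices of the class `j`. -/
noncomputable def classSize (c : Fin n → Fin 3) (j : Fin 3) : ℕ :=
  (univ.filter fun z => c z = j).card

/-- The number of vertices `z` of the class of `x` for which `{x, y, z}` is an edge of `H`. -/
noncomputable def ownDegree (H : Finset (Finset (Fin n))) (c : Fin n → Fin 3) (x y : Fin n) : ℕ :=
  (univ.filter fun z => c z = c x ∧ {x, y, z} ∈ H).card

/-- The conditions with the fractions `κ` and `θ`: two vertices of the class `i` form an edge with at
most `κ |A_{i+1}|` vertices of the class `i`, and a vertex `x` of the class `i` and a vertex `y` of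
the class `i - 1` form an edge with at most `θ |A_{i+1}|` vertices of the class `i`. -/
def FewOutside (H : Finset (Finset (Fin n))) (c : Fin n → Fin 3) (κ θ : ℝ) : Prop :=
  (∀ x y, x ≠ y → c x = c y → (ownDegree H c x y : ℝ) ≤ κ * classSize c (c x + 1)) ∧
  ∀ x y, c x = c y + 1 → (ownDegree H c x y : ℝ) ≤ θ * classSize c (c x + 1)

theorem inner {H : Finset (Finset (Fin n))} (h3 : ∀ s ∈ H, s.card = 3) {c : Fin n → Fin 3}
    {κ θ : ℝ} (hκ : 0 ≤ κ) (h : FewOutside H c κ θ) (x y : Fin n) (hxy : c x = c y) :
    ∑ w ∈ Pool.Agent.X59.OC.Cls c (c x), Pool.Agent.X59.OC.e H x y w ≤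
      κ * Pool.Agent.X59.LF.sz c (c x + 1) := by
  by_cases hne : x = y
  · subst hne
    have : ∑ w ∈ Pool.Agent.X59.OC.Cls c (c x), Pool.Agent.X59.OC.e H x x w = 0 := by
      refine sum_eq_zero fun w _ => ?_
      unfold Pool.Agent.X59.OC.e
      rw [if_neg]
      intro hm
      exact (Pool.Agent.X59.OC.ne_of_card3 (h3 _ hm)).1 rfl
    rw [this]
    exact mul_nonneg hκ (Pool.Agent.X59.LF.sz_nonneg _)
  · have h1 := h.1 x y hne hxy
    have h2 : ∑ w ∈ Pool.Agent.X59.OC.Cls c (c x), Pool.Agent.X59.OC.e H x y w =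
        (ownDegree H c x y : ℝ) := by
      unfold Pool.Agent.X59.OC.Cls Pool.Agent.X59.OC.e ownDegree
      rw [← filter_filter, card_filter]
      push_cast
      rfl
    rw [h2]
    exact h1

theorem outer {H : Finset (Finset (Fin n))} {c : Fin n → Fin 3}
    {κ θ : ℝ} (h : FewOutside H c κ θ) (x z : Fin n) (hxz : c x = c z + 1) :
    ∑ y ∈ Pool.Agent.X59.OC.Cls c (c x), Pool.Agent.X59.OC.e H x y z ≤
      θ * Pool.Agent.X59.LF.sz c (c x + 1) := by
  have h1 := h.2 x z hxz
  have h2 : ∑ y ∈ Pool.Agent.X59.OC.Cls c (c x), Pool.Agent.X59.OC.e H x y z =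
      (ownDegree H c x z : ℝ) := by
    have : ∀ y, Pool.Agent.X59.OC.e H x y z = Pool.Agent.X59.OC.e H x z y := fun y =>
      Pool.Agent.X59.OC.e_swap23 x y z
    simp only [this]
    unfold Pool.Agent.X59.OC.Cls Pool.Agent.X59.OC.e ownDegree
    rw [← filter_filter, card_filter]
    push_cast
    rfl
  rw [h2]
  exact h1

theorem finish {H T : Finset (Finset (Fin n))}
    (h : ((H \ T).card : ℝ) ≤ 99 / 101 * ((T \ H).card : ℝ)) :
    100 * H.card + ((H \ T).card + (T \ H).card) ≤ 100 * T.card := by
  have h1 := Pool.Agent.X59.LF.card_eq H T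
  have : (100 : ℝ) * H.card + ((H \ T).card + (T \ H).card) ≤ 100 * T.card := by linarith
  exact_mod_cast this

/-- (1) Let `H` be a `K_4^3`-free 3-graph, let its vertices be divided into three classes of any
sizes (by `c`) such that `FewOutside H c κ θ` holds, and let `T = turan c`. If, for some `μ > θ/2`,
`κ + (μ² + 2θ)/(2μ - θ) ≤ ρ` and `6θμ/(2μ - θ) ≤ ρ`, then `|H \ T| ≤ ρ |T \ H|`.
(2) If `(κ, θ)` is `(1/2, 1/11)`, `(1/3, 1/7)` or `(1/10, 1/4)`, then
`|H| + |H ∆ T| / 100 ≤ |T| ≤ turanNumber n`.
(3) `turan c` is `K_4^3`-free and has at most `turanNumber n` edges, for every `c`. -/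
theorem result :
    (∀ (n : ℕ) (H : Finset (Finset (Fin n))), (∀ s ∈ H, s.card = 3) → K43Free H →
      ∀ (c : Fin n → Fin 3) (κ θ μ ρ : ℝ), 0 ≤ κ → 0 ≤ θ → θ / 2 < μ →
        κ + (μ ^ 2 + 2 * θ) / (2 * μ - θ) ≤ ρ → 6 * θ * μ / (2 * μ - θ) ≤ ρ →
        FewOutside H c κ θ → ((H \ turan c).card : ℝ) ≤ ρ * ((turan c \ H).card : ℝ)) ∧
    (∀ (n : ℕ) (H : Finset (Finset (Fin n))), (∀ s ∈ H, s.card = 3) → K43Free H →
      ∀ c : Fin n → Fin 3,
        FewOutside H c (1 / 2) (1 / 11) ∨ FewOutside H c (1 / 3) (1 / 7) ∨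
          FewOutside H c (1 / 10) (1 / 4) →
        100 * H.card + ((H \ turan c).card + (turan c \ H).card) ≤ 100 * (turan c).card ∧
          (turan c).card ≤ turanNumber n) ∧
    (∀ (n : ℕ) (c : Fin n → Fin 3), K43Free (turan c) ∧ (turan c).card ≤ turanNumber n) := by
  have p1 : ∀ (n : ℕ) (H : Finset (Finset (Fin n))), (∀ s ∈ H, s.card = 3) → K43Free H →
      ∀ (c : Fin n → Fin 3) (κ θ μ ρ : ℝ), 0 ≤ κ → 0 ≤ θ → θ / 2 < μ →
        κ + (μ ^ 2 + 2 * θ) / (2 * μ - θ) ≤ ρ → 6 * θ * μ / (2 * μ - θ) ≤ ρ →
        FewOutside H c κ θ → ((H \ turan c).card : ℝ) ≤ ρ * ((turan c \ H).card : ℝ) := by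
    intro n H h3 hK c κ θ μ ρ hκ hθ hμ h1 h2 h
    have hD : 0 < 2 * μ - θ := by linarith
    refine Pool.Agent.X59.LF.master (c := c) (μ := μ) hK h3 hκ hθ (by linarith) ?_ ?_
      (fun x y hxy => inner h3 hκ h x y hxy) (fun x z hxz => outer h x z hxz)
    · have := mul_le_mul_of_nonneg_right h1 hD.le
      rw [add_mul, div_mul_cancel₀ _ hD.ne'] at this
      linarith
    · have := mul_le_mul_of_nonneg_right h2 hD.le
      rw [div_mul_cancel₀ _ hD.ne'] at this
      exact this
  refine ⟨p1, fun n H h3 hK c h => ⟨?_, Pool.Agent.X59.LF.turan_le⟩, fun n c =>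
    ⟨Pool.Agent.X59.LF.turan_free, Pool.Agent.X59.LF.turan_le⟩⟩
  apply finish
  rcases h with h | h | h
  · exact p1 n H h3 hK c _ _ (3 / 7) (99 / 101) (by norm_num) (by norm_num) (by norm_num)
      (by norm_num) (by norm_num) h
  · exact p1 n H h3 hK c _ _ (8 / 15) (99 / 101) (by norm_num) (by norm_num) (by norm_num)
      (by norm_num) (by norm_num) h
  · exact p1 n H h3 hK c _ _ (7 / 10) (99 / 101) (by norm_num) (by norm_num) (by norm_num)
      (by norm_num) (by norm_num) h

end Pool.Agent.Results.MP_466853_co.LibFour
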