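import Pool.Agent.X45.Ex.CCheck
import Pool.Agent.X45.Ex.Tur2

/-!
# Turán's bound and the transversals of a division into three classes

Let `H` be a `K_4^3`-free 3-graph on `n` vertices, and let the vertices be divided into three
classes. We prove `54 |H| ≤ 5 (n^3 + m + 3 i)`, where `m` is the number of the triples that meet all
three classes and are not in `H` and `i` is the number of the edges of `H` inside classes; nothing
is assumed on the triples with two vertices in one class and one in another. The proof is a flag
algebra computation of order five for coloured 3-graphs, with an exact certificate checked by the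
kernel.
-/

set_option autoImplicit false
open Finset

namespace Pool.Agent.Results.MP_466853_co.MissingTransversals

variable {n : ℕ}

/-- The 3-graph `H` has no four vertices spanning all four triples. -/
def K43Free (H : Finset (Finset (Fin n))) : Prop :=
  ∀ S : Finset (Fin n), S.card = 4 → ∃ T ⊆ S, T.card = 3 ∧ T ∉ H

/-- The triples that meet all three classes of `g` and are not in `H`. -/
def missing (H : Finset (Finset (Fin n))) (g : Fin n → Fin 3) : Finset (Finset (Fin n)) :=
  univ.filter fun t => t.card = 3 ∧ (∀ p, ∃ i ∈ t, g i = p) ∧ t ∉ H

/-- The edges of `H` inside classes of `g`. -/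
def inner (H : Finset (Finset (Fin n))) (g : Fin n → Fin 3) : Finset (Finset (Fin n)) :=
  H.filter fun t => ∃ p, ∀ i ∈ t, g i = p

open Pool.Agent.Y439.Col Pool.Agent.X45.Ex

/-- Let `H` be a `K_4^3`-free 3-graph on `n` vertices and `g` any division of its vertices into
three classes. If `m` triples meeting all three classes are not in `H`, and `i` edges of `H` lie
inside classes, then `|H| ≤ 5 (n^3 + m + 3 i) / 54`. -/
theorem result (H : Finset (Finset (Fin n))) (h3 : ∀ e ∈ H, e.card = 3) (hK : K43Free H)
    (g : Fin n → Fin 3) :
    54 * H.card ≤ 5 * (n ^ 3 + (missing H g).card + 3 * (inner H g).card) := by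
  have hc : ∀ x, ((g x : Fin 3) : ℕ) < 3 := fun x => (g x).2
  have hC := Pool.Agent.X45.Ex.C.final (fun v => (g v : ℕ)) hc (tri H) (tri_le H) (tri_s1 H)
    (tri_s2 H) (tri_k4 h3 hK)
  have bC := bridge 1 3 0 720000 50000 H h3 g Pool.Agent.X45.Ex.C.pt
    (fun _ _ _ _ _ _ _ _ _ _ _ _ _ _ _ => rfl) hC
  rw [Fintype.card_fin] at bC
  have eM : missT H g = missing H g := by
    ext t
    rw [mem_missT]
    unfold missing
    rw [mem_filter]
    simp only [mem_univ, true_and]
    rfl
  have eI : innerE H g = inner H g := by
    ext t
    rw [mem_innerE]
    unfold inner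
    rw [mem_filter]
    rfl
  rw [← eM, ← eI]
  omega

end Pool.Agent.Results.MP_466853_co.MissingTransversals
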