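import Pool.Agent.X45.Fk.Main

/-!
# Turán's bound and two kinds of edges for a division into three classes

Let `H` be a `K_4^3`-free 3-graph on `n` vertices, and let the vertices be divided into three
classes. The triples which meet exactly two classes are of six kinds: two vertices in one class and
one vertex in another. We prove `54 |H| ≤ 5 (n^3 + x + y + 3 z)`, where `x` and `y` are the numbers
of the edges of any two of these kinds and `z` is the number of the edges inside classes. So Turán's
bound `|H| ≤ 5 n^3 / 54` holds if the classes are independent and two of the six kinds do not occur;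
Turán's construction has three of the kinds. The proof uses four flag algebra computations of order
five for coloured 3-graphs, with exact certificates checked by the kernel.
-/

set_option autoImplicit false
open Finset

namespace Pool.Agent.Results.MP_466853_co.TwoKinds

variable {n : ℕ}

/-- The 3-graph `H` has no four vertices spanning all four triples. -/
def K43Free (H : Finset (Finset (Fin n))) : Prop :=
  ∀ S : Finset (Fin n), S.card = 4 → ∃ T ⊆ S, T.card = 3 ∧ T ∉ H

/-- The edges of `H` with two vertices in the class `i` and one vertex in the class `j`. -/
def mixed (H : Finset (Finset (Fin n))) (g : Fin n → Fin 3) (i j : Fin 3) :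
    Finset (Finset (Fin n)) :=
  H.filter fun t => (t.filter fun x => g x = i).card = 2 ∧ (t.filter fun x => g x = j).card = 1

/-- The edges of `H` inside classes of `g`. -/
def inner (H : Finset (Finset (Fin n))) (g : Fin n → Fin 3) : Finset (Finset (Fin n)) :=
  H.filter fun t => ∃ p, ∀ i ∈ t, g i = p

open Pool.Agent.Y439.Col Pool.Agent.X45.Ex Pool.Agent.X45.Fk

/-- Let `H` be a `K_4^3`-free 3-graph on `n` vertices, `g` any division of its vertices into three
classes, and `(i, j)` and `(k, l)` two different pairs of different classes. If `H` has `x` edges
with two vertices in the class `i` and one in the class `j`, and `y` edges with two vertices in the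
class `k` and one in the class `l`, and `z` edges inside classes, then
`|H| ≤ 5 (n^3 + x + y + 3 z) / 54`. -/
theorem result (H : Finset (Finset (Fin n))) (h3 : ∀ e ∈ H, e.card = 3) (hK : K43Free H)
    (g : Fin n → Fin 3) (i j k l : Fin 3) (hij : i ≠ j) (hkl : k ≠ l) (hne : (i, j) ≠ (k, l)) :
    54 * H.card ≤
      5 * (n ^ 3 + (mixed H g i j).card + (mixed H g k l).card + 3 * (inner H g).card) := by
  have h := Pool.Agent.X45.Fk.all H h3 (tri_k4 h3 hK) g i j k l hij hkl hne
  unfold Bd at h
  rw [Fintype.card_fin] at h
  have hkind : ∀ a b : Fin 3, kindE H g a b = mixed H g a b := by
    intro a b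
    ext e
    rw [mem_kindE]
    unfold mixed
    rw [mem_filter]
  have hinn : innerE H g = inner H g := by
    ext e
    rw [mem_innerE]
    unfold inner
    rw [mem_filter]
    rfl
  rwa [hkind, hkind, hinn] at h

end Pool.Agent.Results.MP_466853_co.TwoKinds
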